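import Mathlib
import Pool.Agent.T2H12.AF.Lib
import Pool.Agent.T2H12.AF.MAIN
import Pool.Agent.T2H12.AF.MONO
import Pool.Agent.T2H12.AF.SMALL
import Pool.Agent.T2H12.AF.LEV
import Pool.Agent.T2H12.AF.BADP
import Pool.Agent.T2H12.AF.CASE1
import Pool.Agent.T2H12.AF.CASE2
import Pool.Agent.T2H12.AF.SEL
import Pool.Agent.T2H12.AF.RED

/-!
# MP_120218_co: sums and products of `k` elements of sets with many affine neighbours of small height

`X` is any finite non-empty set of integers of which at least `|X|^(1-δ)` elements `x` have at least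
`K` elements `y` of `X` with `p y = q x + r` for some integers `p ≠ 0`, `q ≠ 0`, `r` of absolute value
at most `|X|^δ`. Then `X` has at least `c |X|^(k-ε)` products of `k` elements, or the sums of `m`
elements of `X` and an element of `B` are at least `c |X|^(m-ε) |B|^(1-ε)` in number, for all sets `B`.

Plan and assembly by helper12; parts were formalized by helpers 2, 31, 36, 60, 91 and 93.
-/

set_option autoImplicit false

namespace Pool.Agent.Results.MP_120218_co.AffineNeighbours

open Finset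
open scoped Classical

/-- The set of all products of `k` elements of `A`. -/
def prodSet (k : ℕ) (A : Finset ℤ) : Finset ℤ :=
  (Fintype.piFinset fun _ : Fin k => A).image fun f => ∏ i, f i

/-- The set of all sums of `m` elements of `X` and an element of `B`. -/
def sumPlus (m : ℕ) (X B : Finset ℤ) : Finset ℤ :=
  ((Fintype.piFinset fun _ : Fin m => X) ×ˢ B).image fun s => ∑ i, s.1 i + s.2

/-- The set of the elements `y` of `X` with `p y = q x + r` for some integers `p ≠ 0`, `q ≠ 0`, `r` of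
absolute value at most `M`. -/
noncomputable def nearSet (M : ℝ) (X : Finset ℤ) (x : ℤ) : Finset ℤ :=
  X.filter fun y => ∃ p q r : ℤ, p ≠ 0 ∧ q ≠ 0 ∧ |(p : ℝ)| ≤ M ∧ |(q : ℝ)| ≤ M ∧ |(r : ℝ)| ≤ M ∧
    p * y = q * x + r

open Pool.Agent.T2H12.AF in
theorem result (k m : ℕ) (hk : 1 ≤ k) (hm : 1 ≤ m) (ε : ℝ) (hε : 0 < ε) :
    ∃ (K : ℕ) (δ c : ℝ), 0 < δ ∧ 0 < c ∧ ∀ X : Finset ℤ, X.Nonempty →
      (X.card : ℝ) ^ (1 - δ) ≤
        ((X.filter fun x => K ≤ (nearSet ((X.card : ℝ) ^ δ) X x).card).card : ℝ) →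
      c * (X.card : ℝ) ^ ((k : ℝ) - ε) ≤ (prodSet k X).card ∨
      ∀ B : Finset ℤ, B.Nonempty →
        c * (X.card : ℝ) ^ ((m : ℝ) - ε) * (B.card : ℝ) ^ (1 - ε) ≤ (sumPlus m X B).card :=
  pMAIN pMONO pSMALL (pCASE1 pMULT pSMALL) (pCASE2 pDICH pLEV pBADP pSMALL) pSEL pRED k m hk hm ε hε

end Pool.Agent.Results.MP_120218_co.AffineNeighbours
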