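import Mathlib
import Pool.Agent.T2H12.KR.RatL

/-!
# MP_120218_co: the `k`-fold sum-product conjecture for almost all sums of dilates

For all `k, m ≥ 1` and `ε > 0` there are `K`, `δ > 0`, `c > 0` such that for every finite non-empty set
`A` of integers `|A^k| ≥ c |A|^(k-ε)`, or for every finite set `H` of non-zero rational numbers with
numerators and denominators of absolute value at most `|A|^(δ log (1 + log |A|))` and every finite
non-empty set `B` of rational numbers all but at most `K |H|^(m-1)` of the `|H|^m` tuples `l` of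
elements of `H` satisfy `|l_0 A + ... + l_(m-1) A + B| ≥ c |A|^(m-ε) |B|^(1-ε)`.

The bound `|A|^(δ log (1 + log |A|))` on the heights exceeds every fixed power of `|A|` once `|A|` is
large. For `m = 1` and `B = A`: `|A A| ≥ c |A|^(2-ε)`, or `|A + l A| ≥ c |A|^(2-ε)` for all but `K`
rational numbers `l` of height at most this bound.
-/

set_option autoImplicit false

namespace Pool.Agent.Results.MP_120218_co.KFoldForAlmostAllDilates

open Finset
open scoped Classical

/-- The set of all products of `k` elements of `A`. -/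
def prodSet (k : ℕ) (A : Finset ℤ) : Finset ℤ :=
  (Fintype.piFinset fun _ : Fin k => A).image fun f => ∏ i, f i

/-- The set `l 0 A + l 1 A + ... + l (m - 1) A + B`. -/
def dilateSum (m : ℕ) (l : Fin m → ℚ) (A : Finset ℤ) (B : Finset ℚ) : Finset ℚ :=
  ((Fintype.piFinset fun _ : Fin m => A) ×ˢ B).image fun s => ∑ i, l i * (s.1 i : ℚ) + s.2

/-- The tuples `l` of `m` elements of `H` for which `l 0 A + l 1 A + ... + l (m - 1) A + B` has fewer
than `x` elements. -/
noncomputable def badTuples (m : ℕ) (H : Finset ℚ) (A : Finset ℤ) (B : Finset ℚ) (x : ℝ) :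
    Finset (Fin m → ℚ) :=
  (Fintype.piFinset fun _ : Fin m => H).filter fun l => ((dilateSum m l A B).card : ℝ) < x

theorem result (k m : ℕ) (hk : 1 ≤ k) (hm : 1 ≤ m) (ε : ℝ) (hε : 0 < ε) :
    ∃ (K : ℕ) (δ c : ℝ), 0 < δ ∧ 0 < c ∧ ∀ A : Finset ℤ, A.Nonempty →
      c * (A.card : ℝ) ^ ((k : ℝ) - ε) ≤ (prodSet k A).card ∨
      ∀ H : Finset ℚ, (0 : ℚ) ∉ H →
        (∀ h ∈ H, |(h.num : ℝ)| ≤ (A.card : ℝ) ^ (δ * Real.log (1 + Real.log A.card)) ∧
          (h.den : ℝ) ≤ (A.card : ℝ) ^ (δ * Real.log (1 + Real.log A.card))) →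
      ∀ B : Finset ℚ, B.Nonempty →
        (badTuples m H A B (c * (A.card : ℝ) ^ ((m : ℝ) - ε) * (B.card : ℝ) ^ (1 - ε))).card ≤
          K * H.card ^ (m - 1) :=
  Pool.Agent.T2H12.KR.rat_mainL' k m hk hm hε

end Pool.Agent.Results.MP_120218_co.KFoldForAlmostAllDilates
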