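import Mathlib
import Pool.Agent.T2H12.KR.Add

/-!
# MP_120218_co: sums and products of `k` elements, for almost all bounded shifts of a finite set

`A` is any finite non-empty set of integers, `T` a set of at least `n(k, ε, d)` integers of bounded
diameter and `f` a polynomial of degree between `1` and `d`. For all but an exponentially small
proportion of the functions `j : A → T` the set `X = {f(a + j(a)) : a ∈ A}`, and every set between
this set and `{f(a + t) : a ∈ A, t ∈ T}`, has at least `c |X|^(k-ε)` products of `k` elements.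
-/

set_option autoImplicit false

namespace Pool.Agent.Results.MP_120218_co.RandomBoundedShifts

open Finset
open scoped Classical

/-- The set of all products of `k` elements of `X`. -/
def products (k : ℕ) (X : Finset ℤ) : Finset ℤ :=
  (Fintype.piFinset fun _ : Fin k => X).image fun g => ∏ i, g i

/-- The functions `j : A → T` for which some set `X` with
`{f(a + j(a)) : a ∈ A} ⊆ X ⊆ {f(a + t) : a ∈ A, t ∈ T}` has fewer than `c |X|^(k-ε)` products of `k`
elements. -/
noncomputable def exceptional (f : Polynomial ℤ) (k : ℕ) (ε c : ℝ) (A T : Finset ℤ) :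
    Finset (A → ℤ) :=
  (Fintype.piFinset fun _ : A => T).filter fun j => ∃ X : Finset ℤ,
    (univ.image fun a : A => f.eval (a + j a)) ⊆ X ∧
    X ⊆ ((A ×ˢ T).image fun s => f.eval (s.1 + s.2)) ∧
    ((products k X).card : ℝ) < c * (X.card : ℝ) ^ ((k : ℝ) - ε)

theorem result (k : ℕ) (hk : 1 ≤ k) (ε : ℝ) (hε : 0 < ε) (hε1 : ε ≤ 1) (d : ℕ) :
    ∃ n : ℕ, ∀ w : ℕ, ∃ c : ℝ, 0 < c ∧ ∀ f : Polynomial ℤ, 1 ≤ f.natDegree →
      f.natDegree ≤ d → ∀ T : Finset ℤ, n ≤ T.card → (∀ x ∈ T, ∀ y ∈ T, |x - y| ≤ (w : ℤ)) →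
      ∀ A : Finset ℤ, A.Nonempty →
        ((exceptional f k ε c A T).card : ℝ) ≤
          Real.exp (-(c * (A.card : ℝ) ^ (1 - ε))) * (T.card : ℝ) ^ A.card :=
  Pool.Agent.T2H12.KR.add_main k hk hε hε1 d

end Pool.Agent.Results.MP_120218_co.RandomBoundedShifts
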